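import Pool.Agent.H38R2.CG2.Stubs

/-!
# P2_CC4: twisted sums over k-element sets (from P_CC1 and P_CC3)
-/

set_option autoImplicit false

namespace Run7.h376.CG

open Finset Filter Pool.Agent.H38R2.CG Pool.Agent.H38R2.CG2
open scoped Classical

lemma chi_pow {M : ℕ} (hM : 1 ≤ M) (ψ : DirichletCharacter ℂ M) (a : ZMod M) :
    ψ a = 0 ∨ ψ a ^ (M.totient) = 1 := by
  have : NeZero M := ⟨by omega⟩
  by_cases ha : IsUnit a
  · right
    obtain ⟨u, rfl⟩ := ha
    rw [← map_pow, ← Units.val_pow_eq_pow_val, ZMod.pow_totient, Units.val_one, map_one]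
  · left
    exact ψ.map_nonunit ha

lemma jac_sq (p : ℤ) (f : ℕ) : jacobiSym p f = 0 ∨ jacobiSym p f ^ 2 = 1 := by
  rcases jacobiSym.trichotomy p f with h | h | h
  · left; exact h
  · right; rw [h]; norm_num
  · right; rw [h]; norm_num

lemma x_pow {M : ℕ} (hM : 1 ≤ M) (ψ : DirichletCharacter ℂ M) (f : ℕ) (p : ℕ) :
    ψ (p : ZMod M) * ((jacobiSym (p : ℤ) f : ℤ) : ℂ) = 0 ∨
    (ψ (p : ZMod M) * ((jacobiSym (p : ℤ) f : ℤ) : ℂ)) ^ (2 * M.totient) = 1 := by
  rcases chi_pow hM ψ (p : ZMod M) with h | h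
  · left; rw [h, zero_mul]
  · rcases jac_sq (p : ℤ) f with h2 | h2
    · left; rw [h2]; simp
    · right
      rw [mul_pow, mul_comm 2, pow_mul, h, one_pow, one_mul, mul_comm, pow_mul]
      have : (((jacobiSym (p : ℤ) f : ℤ) : ℂ)) ^ 2 = 1 := by
        rw [← Int.cast_pow, h2, Int.cast_one]
      rw [this, one_pow]

lemma prod_eq (M f : ℕ) (ψ : DirichletCharacter ℂ M) (ξ : ℝ) (s : Finset ℕ)
    (hs : ∀ p ∈ s, 0 < p) :
    ∏ p ∈ s, (ψ (p : ZMod M) * ((jacobiSym (p : ℤ) f : ℤ) : ℂ) *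
      Complex.exp (ξ * Real.log p * Complex.I)) =
    ψ (prodS s : ZMod M) * ((jacobiSym (prodS s : ℤ) f : ℤ) : ℂ) *
      Complex.exp (ξ * Real.log (prodS s) * Complex.I) := by
  induction s using Finset.induction_on with
  | empty => simp [prodS, jacobiSym.one_left]
  | insert p s hp ih =>
    have h1 : prodS (insert p s) = p * prodS s := by
      rw [prodS, Finset.prod_insert hp, prodS]
    have hpos : 0 < p := hs p (Finset.mem_insert_self p s)
    have hs' : ∀ q ∈ s, 0 < q := fun q hq => hs q (Finset.mem_insert_of_mem hq)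
    have hS : 0 < prodS s := Finset.prod_pos hs'
    rw [Finset.prod_insert hp, ih hs', h1]
    push_cast
    rw [map_mul, jacobiSym.mul_left]
    have h2 : Real.log ((p : ℝ) * (prodS s : ℝ)) = Real.log p + Real.log (prodS s) := by
      rw [Real.log_mul (by positivity) (by positivity)]
    rw [h2]
    push_cast
    rw [mul_add, add_mul, Complex.exp_add]
    ring

lemma norm_x_le (M f p : ℕ) (ψ : DirichletCharacter ℂ M) (ξ : ℝ) :
    ‖ψ (p : ZMod M) * ((jacobiSym (p : ℤ) f : ℤ) : ℂ) *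
      Complex.exp (ξ * Real.log p * Complex.I)‖ ≤ 1 := by
  rw [norm_mul, norm_mul]
  have h1 : ‖ψ (p : ZMod M)‖ ≤ 1 := ψ.norm_le_one _
  have h2 : ‖((jacobiSym (p : ℤ) f : ℤ) : ℂ)‖ ≤ 1 := by
    rcases jacobiSym.trichotomy (p : ℤ) f with h | h | h <;> rw [h] <;> simp
  have h3 : ‖Complex.exp (ξ * Real.log p * Complex.I)‖ = 1 := by
    have : (ξ : ℂ) * Real.log p * Complex.I = ((ξ * Real.log p : ℝ) : ℂ) * Complex.I := by
      push_cast; ring
    rw [this, Complex.norm_exp_ofReal_mul_I]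
  rw [h3, mul_one]
  exact mul_le_one₀ h1 (norm_nonneg _) h2

theorem T2_CC4 (h1 : P_CC1) (h3 : P_CC3) : P2_CC4 := by
  intro M hM
  have hφ : 1 ≤ 2 * M.totient := by
    have := Nat.totient_pos.mpr hM
    omega
  obtain ⟨c, hc0, hc1, y0, hy⟩ := h3 (2 * M.totient) hφ
  refine ⟨c, hc0, hc1, y0, ?_⟩
  intro y hy0 ψ f _ _ hsum k hk hk2 ξ hξ
  have h4 := hy y hy0 (fun p => ψ (p : ZMod M) * ((jacobiSym (p : ℤ) f : ℤ) : ℂ))
    (fun p _ => x_pow hM ψ f p) hsum ξ hξ
  have h5 := h1 (PP y) (fun p => ψ (p : ZMod M) * ((jacobiSym (p : ℤ) f : ℤ) : ℂ) *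
      Complex.exp (ξ * Real.log p * Complex.I)) c k
    (fun p _ => norm_x_le M f p ψ ξ) hc0 hc1 hk hk2 h4
  have h6 : ∑ s ∈ (PP y).powersetCard k, ∏ p ∈ s, (ψ (p : ZMod M) *
      ((jacobiSym (p : ℤ) f : ℤ) : ℂ) * Complex.exp (ξ * Real.log p * Complex.I)) =
      ∑ s ∈ (PP y).powersetCard k, ψ (prodS s : ZMod M) *
        ((jacobiSym (prodS s : ℤ) f : ℤ) : ℂ) *
        Complex.exp (ξ * Real.log (prodS s) * Complex.I) := by
    apply Finset.sum_congr rfl
    intro s hs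
    apply prod_eq
    intro p hp
    have h7 := (Finset.mem_powersetCard.mp hs).1 hp
    rw [PP, Finset.mem_filter] at h7
    exact h7.2.pos
  rw [h6] at h5
  exact h5

end Run7.h376.CG
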