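import Pool.Agent.H38R2.CG2.Stubs

/-!
# P2_CC7: bad f have small weighted harmonic sum (from P_CC5 and P_CC6)
-/

set_option autoImplicit false

namespace Run7.h376.CG

open Finset Filter Pool.Agent.H38R2.CG Pool.Agent.H38R2.CG2
open scoped Classical

/-- divisor bound -/
lemma omega_bound (C1 : ℕ) (δ : ℝ) (hδ : 0 < δ) : ∃ K : ℝ, 0 < K ∧ ∀ f : ℕ, 1 ≤ f →
    (C1 : ℝ) ^ f.primeFactors.card ≤ K * (f : ℝ) ^ δ := by
  obtain ⟨P0, hP0⟩ := exists_nat_ge (((C1 : ℝ) + 1) ^ (1 / δ))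
  have hC : (1 : ℝ) ≤ (C1 : ℝ) + 1 := by
    have : (0 : ℝ) ≤ C1 := Nat.cast_nonneg _
    linarith
  refine ⟨((C1 : ℝ) + 1) ^ (P0 + 1), by positivity, ?_⟩
  intro f hf
  have hbig : ∀ p : ℕ, P0 < p → (C1 : ℝ) + 1 ≤ (p : ℝ) ^ δ := by
    intro p hp
    have h1 : ((C1 : ℝ) + 1) ^ (1 / δ) ≤ p := hP0.trans (by exact_mod_cast hp.le)
    have h2 := Real.rpow_le_rpow (by positivity) h1 hδ.le
    rwa [← Real.rpow_mul (by linarith), one_div_mul_cancel hδ.ne', Real.rpow_one] at h2
  have h1 : (C1 : ℝ) ^ f.primeFactors.card ≤ ((C1 : ℝ) + 1) ^ f.primeFactors.card :=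
    pow_le_pow_left₀ (Nat.cast_nonneg _) (by linarith) _
  have h2 : ((C1 : ℝ) + 1) ^ f.primeFactors.card = ∏ p ∈ f.primeFactors, ((C1 : ℝ) + 1) := by
    rw [Finset.prod_const]
  have h3 : ∏ p ∈ f.primeFactors, ((C1 : ℝ) + 1) =
      (∏ p ∈ f.primeFactors.filter (fun p => p ≤ P0), ((C1 : ℝ) + 1)) *
      ∏ p ∈ f.primeFactors.filter (fun p => ¬ p ≤ P0), ((C1 : ℝ) + 1) :=
    (Finset.prod_filter_mul_prod_filter_not _ _ _).symm
  have h4 : ∏ p ∈ f.primeFactors.filter (fun p => p ≤ P0), ((C1 : ℝ) + 1) ≤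
      ((C1 : ℝ) + 1) ^ (P0 + 1) := by
    rw [Finset.prod_const]
    apply pow_le_pow_right₀ hC
    calc (f.primeFactors.filter (fun p => p ≤ P0)).card ≤ (Finset.range (P0 + 1)).card := by
          apply Finset.card_le_card
          intro p hp
          rw [Finset.mem_filter] at hp
          rw [Finset.mem_range]
          omega
      _ = P0 + 1 := Finset.card_range _
  have h5 : ∏ p ∈ f.primeFactors.filter (fun p => ¬ p ≤ P0), ((C1 : ℝ) + 1) ≤
      ∏ p ∈ f.primeFactors.filter (fun p => ¬ p ≤ P0), (p : ℝ) ^ δ := by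
    apply Finset.prod_le_prod
    · intro p _; linarith
    · intro p hp
      rw [Finset.mem_filter, not_le] at hp
      exact hbig p hp.2
  have h6 : ∏ p ∈ f.primeFactors.filter (fun p => ¬ p ≤ P0), (p : ℝ) ^ δ ≤ (f : ℝ) ^ δ := by
    rw [Real.finsetProd_rpow _ _ (fun p _ => Nat.cast_nonneg p)]
    apply Real.rpow_le_rpow (Finset.prod_nonneg (fun p _ => Nat.cast_nonneg p)) _ hδ.le
    have h7 : (∏ p ∈ f.primeFactors.filter (fun p => ¬ p ≤ P0), p) ∣ f :=
      (Finset.prod_dvd_prod_of_subset _ _ _ (Finset.filter_subset _ _)).trans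
        (Nat.prod_primeFactors_dvd f)
    have h8 := Nat.le_of_dvd (by omega) h7
    calc ∏ p ∈ f.primeFactors.filter (fun p => ¬ p ≤ P0), (p : ℝ) =
          ((∏ p ∈ f.primeFactors.filter (fun p => ¬ p ≤ P0), p : ℕ) : ℝ) := by push_cast; rfl
      _ ≤ f := by exact_mod_cast h8
  rw [h2, h3] at h1
  refine h1.trans (mul_le_mul h4 (h5.trans h6) ?_ (by positivity))
  exact Finset.prod_nonneg (fun p _ => by linarith)

lemma fact_le (n : ℕ) : (n + 1).factorial ≤ (n + 1) ^ n := by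
  induction n with
  | zero => simp
  | succ n ih =>
    rw [Nat.factorial_succ]
    calc (n + 1 + 1) * (n + 1).factorial ≤ (n + 1 + 1) * (n + 1) ^ n :=
          Nat.mul_le_mul_left _ ih
      _ ≤ (n + 1 + 1) * (n + 1 + 1) ^ n :=
          Nat.mul_le_mul_left _ (Nat.pow_le_pow_left (by omega) n)
      _ = (n + 1 + 1) ^ (n + 1) := by rw [pow_succ]; ring

/-- the block of f -/
noncomputable def blkI (Y : ℝ) (f : ℕ) : ℕ := max 1 ⌈2 * Real.log f / Real.log Y⌉₊

lemma blkI_ge (Y : ℝ) (f : ℕ) : 1 ≤ blkI Y f := le_max_left _ _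

lemma le_blkI {Y : ℝ} (hY : 1 < Y) {f : ℕ} (hf : 1 ≤ f) :
    (f : ℝ) ≤ Y ^ ((blkI Y f : ℝ) / 2) := by
  have hl : 0 < Real.log Y := Real.log_pos hY
  have hf0 : (0 : ℝ) < f := by exact_mod_cast hf
  have h1 : 2 * Real.log f / Real.log Y ≤ (blkI Y f : ℝ) := by
    refine (Nat.le_ceil _).trans ?_
    exact_mod_cast le_max_right _ _
  rw [div_le_iff₀ hl] at h1
  rw [← Real.log_le_log_iff hf0 (Real.rpow_pos_of_pos (by linarith) _),
    Real.log_rpow (by linarith)]
  linarith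

lemma blkI_lt {Y : ℝ} (hY : 1 < Y) {f : ℕ} (hf : 1 ≤ f) {n : ℕ} (hn : 1 ≤ n)
    (h : blkI Y f = n + 1) : Y ^ ((n : ℝ) / 2) ≤ (f : ℝ) := by
  have hl : 0 < Real.log Y := Real.log_pos hY
  have hf0 : (0 : ℝ) < f := by exact_mod_cast hf
  have h1 : ⌈2 * Real.log f / Real.log Y⌉₊ = n + 1 := by
    rw [blkI] at h
    omega
  have h2 : (n : ℝ) < 2 * Real.log f / Real.log Y := by
    have : n < ⌈2 * Real.log f / Real.log Y⌉₊ := by omega
    exact Nat.lt_ceil.mp this
  rw [lt_div_iff₀ hl] at h2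
  rw [← Real.log_le_log_iff (Real.rpow_pos_of_pos (by linarith) _) hf0,
    Real.log_rpow (by linarith)]
  linarith

lemma blkI_le {Y : ℝ} (hY : 1 ≤ Real.log Y) {f X : ℕ} (hf : 1 ≤ f) (hfX : f ≤ X)
    (hX : 1 ≤ Real.log X) : (blkI Y f : ℝ) ≤ 3 * Real.log X := by
  have hf0 : (0 : ℝ) < f := by exact_mod_cast hf
  have h1 : Real.log f ≤ Real.log X := Real.log_le_log hf0 (by exact_mod_cast hfX)
  have h0 : 0 ≤ Real.log f := Real.log_nonneg (by exact_mod_cast hf)
  have h2 : 2 * Real.log f / Real.log Y ≤ 2 * Real.log X := by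
    rw [div_le_iff₀ (by linarith)]
    nlinarith
  have h3 : (⌈2 * Real.log f / Real.log Y⌉₊ : ℝ) ≤ 3 * Real.log X := by
    have := (Nat.ceil_lt_add_one (by positivity : 0 ≤ 2 * Real.log f / Real.log Y)).le
    linarith
  rw [blkI]
  push_cast
  exact max_le (by linarith) h3

/-- the main estimate -/
lemma main_est {M : ℕ} {C1 : ℕ} {C K δ : ℝ} (hC : 0 < C) (hK : 0 < K)
    (hδ : 0 < δ) (hδ1 : δ ≤ 1 / 3) (y : ℕ) (X : ℕ) (hX : 1 ≤ Real.log X)
    (hL : 1 ≤ Real.log y) (hy2 : 1 ≤ y)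
    (hω : ∀ f : ℕ, 1 ≤ f → (C1 : ℝ) ^ f.primeFactors.card ≤ K * (f : ℝ) ^ δ)
    (h5 : ∀ i : ℕ, 1 ≤ i → (((Finset.Icc 1 ⌊((2 * y : ℝ)) ^ ((i : ℝ) / 2)⌋₊).filter
      (fun f => Squarefree f ∧ f.Coprime (2 * M) ∧ BadF M y f)).card : ℝ) ≤
      C * (i.factorial : ℝ) * (3 * Real.log y) ^ i)
    (h6 : ∀ f : ℕ, 1 ≤ f → (f : ℝ) ≤ (Real.log y) ^ 3 → Squarefree f → f.Coprime (2 * M) →
      ¬ BadF M y f)
    (hq : 9 * Real.log y * Real.log X * ((2 * y : ℝ)) ^ (-((1 - δ) / 2)) ≤ 1 / 2) :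
    ∑ f ∈ (Finset.Icc 1 X).filter
      (fun f => Squarefree f ∧ f.Coprime (2 * M) ∧ BadF M y f),
      (C1 : ℝ) ^ f.primeFactors.card / f ≤
      3 * C * K / Real.log y + 6 * C * K * Real.log y *
        (9 * Real.log y * Real.log X * ((2 * y : ℝ)) ^ (-((1 - δ) / 2))) := by
  set L := Real.log y with hLd
  set Y : ℝ := 2 * y with hYd
  set q := 9 * L * Real.log X * Y ^ (-((1 - δ) / 2)) with hqd
  have hy0 : (1 : ℝ) ≤ y := by exact_mod_cast hy2
  have hY1 : 1 < Y := by rw [hYd]; linarith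
  have hY0 : 0 < Y := by linarith
  have hLY : 1 ≤ Real.log Y := by
    refine hL.trans (Real.log_le_log (by linarith) ?_)
    rw [hYd]; linarith
  have hq0 : 0 ≤ q := by positivity
  set B := (Finset.Icc 1 X).filter
      (fun f => Squarefree f ∧ f.Coprime (2 * M) ∧ BadF M y f) with hB
  have hmap : ∀ f ∈ B, blkI Y f ∈ Finset.Icc 1 ⌊3 * Real.log X⌋₊ := by
    intro f hf
    rw [hB, Finset.mem_filter, Finset.mem_Icc] at hf
    rw [Finset.mem_Icc]
    exact ⟨blkI_ge _ _, Nat.le_floor (blkI_le hLY hf.1.1 hf.1.2 hX)⟩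
  rw [← Finset.sum_fiberwise_of_maps_to hmap]
  -- size of one term
  have hterm : ∀ (f : ℕ) (Z : ℝ), 1 ≤ f → 0 < Z → Z ≤ f →
      (C1 : ℝ) ^ f.primeFactors.card / f ≤ K * Z ^ (-(1 - δ)) := by
    intro f Z hf hZ hZf
    have hf0 : (0 : ℝ) < f := by exact_mod_cast hf
    rw [div_le_iff₀ hf0]
    refine (hω f hf).trans ?_
    have h1 : (f : ℝ) ^ (-(1 - δ)) ≤ Z ^ (-(1 - δ)) :=
      Real.rpow_le_rpow_of_nonpos hZ hZf (by linarith)
    have h2 : (f : ℝ) ^ δ = (f : ℝ) ^ (-(1 - δ)) * f := by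
      rw [← Real.rpow_add_one hf0.ne']
      congr 1
      ring
    rw [h2, mul_assoc]
    exact mul_le_mul_of_nonneg_left (mul_le_mul_of_nonneg_right h1 hf0.le) hK.le
  -- number of terms in a block
  have hcard : ∀ i : ℕ, 1 ≤ i → ((B.filter (fun f => blkI Y f = i)).card : ℝ) ≤
      C * (i.factorial : ℝ) * (3 * L) ^ i := by
    intro i hi
    refine le_trans ?_ (h5 i hi)
    have : B.filter (fun f => blkI Y f = i) ⊆ (Finset.Icc 1 ⌊Y ^ ((i : ℝ) / 2)⌋₊).filter
      (fun f => Squarefree f ∧ f.Coprime (2 * M) ∧ BadF M y f) := by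
      intro f hf
      rw [Finset.mem_filter, hB, Finset.mem_filter, Finset.mem_Icc] at hf
      rw [Finset.mem_filter, Finset.mem_Icc]
      refine ⟨⟨hf.1.1.1, Nat.le_floor ?_⟩, hf.1.2⟩
      have := le_blkI hY1 hf.1.1.1
      rwa [hf.2] at this
    exact_mod_cast Finset.card_le_card this
  -- blocks
  have hblock : ∀ i ∈ Finset.Icc 1 ⌊3 * Real.log X⌋₊,
      ∑ f ∈ B.filter (fun f => blkI Y f = i), (C1 : ℝ) ^ f.primeFactors.card / f ≤
      (if i = 1 then 3 * C * K / L else 0) + (if 2 ≤ i then 3 * C * K * L * q ^ (i - 1) else 0) := by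
    intro i hi
    rw [Finset.mem_Icc] at hi
    have hi3 : (i : ℝ) ≤ 3 * Real.log X := by
      have h1 : (⌊3 * Real.log X⌋₊ : ℝ) ≤ 3 * Real.log X := Nat.floor_le (by linarith)
      have h2 : (i : ℝ) ≤ (⌊3 * Real.log X⌋₊ : ℝ) := by exact_mod_cast hi.2
      linarith
    rcases Nat.lt_or_ge i 2 with h2 | h2
    · have hi1 : i = 1 := by omega
      subst hi1
      rw [if_pos rfl, if_neg (by norm_num), add_zero]
      have h7 : ∀ f ∈ B.filter (fun f => blkI Y f = 1),
          (C1 : ℝ) ^ f.primeFactors.card / f ≤ K * (L ^ 3) ^ (-(1 - δ)) := by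
        intro f hf
        rw [Finset.mem_filter, hB, Finset.mem_filter, Finset.mem_Icc] at hf
        apply hterm f _ hf.1.1.1 (by positivity)
        by_contra hcon
        rw [not_le] at hcon
        exact h6 f hf.1.1.1 hcon.le hf.1.2.1 hf.1.2.2.1 hf.1.2.2.2
      have h8 := Finset.sum_le_card_nsmul _ _ _ h7
      rw [nsmul_eq_mul] at h8
      have h9 : (L ^ 3 : ℝ) ^ (-(1 - δ)) ≤ (L ^ 2)⁻¹ := by
        have h10 : (L ^ 3 : ℝ) ^ (-(1 - δ)) = L ^ (-(3 * (1 - δ))) := by
          rw [← Real.rpow_natCast L 3, ← Real.rpow_mul (by linarith)]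
          congr 1
          push_cast
          ring
        have h11 : (L ^ 2)⁻¹ = L ^ (-(2 : ℝ)) := by
          rw [Real.rpow_neg (by linarith)]
          norm_num
        rw [h10, h11]
        exact Real.rpow_le_rpow_of_exponent_le hL (by linarith)
      have h12 := hcard 1 le_rfl
      rw [Nat.factorial_one, pow_one, Nat.cast_one, mul_one] at h12
      calc _ ≤ _ := h8
        _ ≤ (C * (3 * L)) * (K * (L ^ 2)⁻¹) := by
            apply mul_le_mul h12 (mul_le_mul_of_nonneg_left h9 hK.le) (by positivity)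
              (by positivity)
        _ = 3 * C * K / L := by field_simp
    · obtain ⟨n, rfl⟩ : ∃ n, i = n + 1 := ⟨i - 1, by omega⟩
      have hn : 1 ≤ n := by omega
      rw [if_neg (by omega), if_pos h2, zero_add]
      have h7 : ∀ f ∈ B.filter (fun f => blkI Y f = n + 1),
          (C1 : ℝ) ^ f.primeFactors.card / f ≤ K * (Y ^ ((n : ℝ) / 2)) ^ (-(1 - δ)) := by
        intro f hf
        rw [Finset.mem_filter, hB, Finset.mem_filter, Finset.mem_Icc] at hf
        exact hterm f _ hf.1.1.1 (by positivity) (blkI_lt hY1 hf.1.1.1 hn hf.2)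
      have h8 := Finset.sum_le_card_nsmul _ _ _ h7
      rw [nsmul_eq_mul] at h8
      have h9 : (Y ^ ((n : ℝ) / 2)) ^ (-(1 - δ)) = (Y ^ (-((1 - δ) / 2))) ^ n := by
        rw [← Real.rpow_mul hY0.le, ← Real.rpow_natCast, ← Real.rpow_mul hY0.le]
        congr 1
        ring
      have h10 : (((n + 1).factorial : ℕ) : ℝ) ≤ ((n : ℝ) + 1) ^ n := by
        exact_mod_cast fact_le n
      push_cast at hi3
      have h11 : ((n : ℝ) + 1) ^ n ≤ (3 * Real.log X) ^ n :=
        pow_le_pow_left₀ (by positivity) hi3 n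
      calc _ ≤ _ := h8
        _ ≤ (C * (3 * Real.log X) ^ n * (3 * L) ^ (n + 1)) * (K * (Y ^ (-((1 - δ) / 2))) ^ n) := by
            rw [h9]
            apply mul_le_mul_of_nonneg_right _ (by positivity)
            refine (hcard (n + 1) (by omega)).trans ?_
            apply mul_le_mul_of_nonneg_right _ (by positivity)
            exact mul_le_mul_of_nonneg_left (h10.trans h11) hC.le
        _ = C * K * (3 * L) *
            ((3 * Real.log X) * (3 * L) * Y ^ (-((1 - δ) / 2))) ^ n := by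
            generalize (3 * Real.log X) = A'
            generalize (3 * L) = B'
            generalize (Y ^ (-((1 - δ) / 2))) = W'
            ring
        _ = 3 * C * K * L * q ^ (n + 1 - 1) := by
            have h12 : (3 * Real.log X) * (3 * L) * Y ^ (-((1 - δ) / 2)) = q := by
              rw [hqd]; ring
            rw [h12, Nat.add_sub_cancel]
            ring
  refine (Finset.sum_le_sum hblock).trans ?_
  rw [Finset.sum_add_distrib]
  have hA : ∑ i ∈ Finset.Icc 1 ⌊3 * Real.log X⌋₊, (if i = 1 then 3 * C * K / L else 0) ≤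
      3 * C * K / L := by
    rw [Finset.sum_ite_eq']
    split_ifs
    · exact le_rfl
    · positivity
  have hBs : ∑ i ∈ Finset.Icc 1 ⌊3 * Real.log X⌋₊,
      (if 2 ≤ i then 3 * C * K * L * q ^ (i - 1) else 0) ≤ 6 * C * K * L * q := by
    set N := ⌊3 * Real.log X⌋₊ with hN
    calc ∑ i ∈ Finset.Icc 1 N, (if 2 ≤ i then 3 * C * K * L * q ^ (i - 1) else 0)
        ≤ ∑ j ∈ Finset.range N, 3 * C * K * L * q * (1 / 2 : ℝ) ^ j := by
          rw [← Finset.sum_filter]
          have h1 : ∀ i ∈ (Finset.Icc 1 N).filter (fun i => 2 ≤ i),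
              3 * C * K * L * q ^ (i - 1) ≤ 3 * C * K * L * q * (1 / 2 : ℝ) ^ (i - 2) := by
            intro i hi
            rw [Finset.mem_filter] at hi
            have h2 : q ^ (i - 1) = q * q ^ (i - 2) := by
              rw [← pow_succ']
              congr 1
              omega
            rw [h2, ← mul_assoc]
            apply mul_le_mul_of_nonneg_left _ (by positivity)
            exact pow_le_pow_left₀ hq0 hq _
          refine (Finset.sum_le_sum h1).trans ?_
          have h3 : ∑ i ∈ (Finset.Icc 1 N).filter (fun i => 2 ≤ i),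
              3 * C * K * L * q * (1 / 2 : ℝ) ^ (i - 2) =
              ∑ j ∈ ((Finset.Icc 1 N).filter (fun i => 2 ≤ i)).image (fun i => i - 2),
                3 * C * K * L * q * (1 / 2 : ℝ) ^ j := by
            rw [Finset.sum_image]
            intro i hi j hj hij
            rw [Finset.mem_coe, Finset.mem_filter] at hi hj
            simp only at hij
            omega
          rw [h3]
          apply Finset.sum_le_sum_of_subset_of_nonneg
          · intro j hj
            rw [Finset.mem_image] at hj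
            obtain ⟨i, hi, rfl⟩ := hj
            rw [Finset.mem_filter, Finset.mem_Icc] at hi
            rw [Finset.mem_range]
            omega
          · intro j _ _
            positivity
      _ = 3 * C * K * L * q * ∑ j ∈ Finset.range N, (1 / 2 : ℝ) ^ j := by rw [Finset.mul_sum]
      _ ≤ 3 * C * K * L * q * 2 :=
          mul_le_mul_of_nonneg_left (sum_geometric_two_le N) (by positivity)
      _ = 6 * C * K * L * q := by ring
  linarith

lemma tendsto_yA {a : ℝ} (ha : 0 < a) : Tendsto (fun X : ℕ => yA a X) atTop atTop := by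
  have h1 : Tendsto (fun X : ℕ => (Real.log X) ^ a / 4) atTop atTop := by
    apply Tendsto.atTop_div_const (by norm_num)
    exact (tendsto_rpow_atTop ha).comp (Real.tendsto_log_atTop.comp tendsto_natCast_atTop_atTop)
  exact tendsto_nat_floor_atTop.comp h1

theorem T2_CC7 (h5 : P_CC5) (h6 : P_CC6) : P2_CC7 := by
  intro a ha M hM C1 ε hε
  obtain ⟨C, hC, y5, hy5⟩ := h5 M hM
  obtain ⟨y6, hy6⟩ := h6 M hM
  set d0 : ℝ := 1 / 2 - 1 / a with hd0
  have hd0p : 0 < d0 := by
    have : 1 / a < 1 / 2 := by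
      apply one_div_lt_one_div_of_lt (by norm_num) ha
    rw [hd0]; linarith
  set δ : ℝ := min (1 / 3) d0 with hδd
  have hδ : 0 < δ := lt_min (by norm_num) hd0p
  have hδ1 : δ ≤ 1 / 3 := min_le_left _ _
  have hδ2 : δ ≤ d0 := min_le_right _ _
  obtain ⟨K, hK, hω⟩ := omega_bound C1 δ hδ
  -- the conditions that hold eventually
  have hlog : Tendsto (fun y : ℕ => Real.log (y : ℝ)) atTop atTop :=
    Real.tendsto_log_atTop.comp tendsto_natCast_atTop_atTop
  have hsmall : Tendsto (fun y : ℕ => Real.log ((2 * y : ℝ)) ^ 2 * ((2 * y : ℝ)) ^ (-(d0 / 2)))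
      atTop (nhds 0) := by
    have h1 : (fun x : ℝ => Real.log x ^ (2 : ℝ)) =o[atTop] fun x => x ^ (d0 / 2) :=
      isLittleO_log_rpow_rpow_atTop 2 (by linarith)
    have h2 := h1.tendsto_div_nhds_zero
    have h3 : Tendsto (fun y : ℕ => (2 * y : ℝ)) atTop atTop :=
      Tendsto.const_mul_atTop (by norm_num) tendsto_natCast_atTop_atTop
    have h4 := h2.comp h3
    refine h4.congr (fun y => ?_)
    simp only [Function.comp]
    rw [div_eq_mul_inv, ← Real.rpow_neg (by positivity)]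
    norm_num
  have hev1 : ∀ᶠ y : ℕ in atTop, 1 ≤ Real.log y ∧ 6 * C * K / ε ≤ Real.log y :=
    (hlog.eventually_ge_atTop 1).and (hlog.eventually_ge_atTop _)
  have hev2 : ∀ᶠ y : ℕ in atTop, Real.log ((2 * y : ℝ)) ^ 2 * ((2 * y : ℝ)) ^ (-(d0 / 2)) ≤
      min (1 / 36) (ε / (216 * C * K)) := by
    apply hsmall.eventually_le_const
    apply lt_min (by norm_num)
    positivity
  have hev3 : ∀ᶠ y : ℕ in atTop, y5 ≤ y ∧ y6 ≤ y ∧ 1 ≤ y :=
    (eventually_ge_atTop y5).and ((eventually_ge_atTop y6).and (eventually_ge_atTop 1))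
  have hlogX : ∀ᶠ X : ℕ in atTop, 1 ≤ Real.log (X : ℝ) := hlog.eventually_ge_atTop 1
  have hall := ((tendsto_yA (by linarith : 0 < a)).eventually
    (hev1.and (hev2.and hev3))).and hlogX
  obtain ⟨X0, hX0⟩ := eventually_atTop.mp hall
  refine ⟨X0, fun X hX => ?_⟩
  obtain ⟨⟨⟨hL1, hL2⟩, hsm, h5y, h6y, hy1⟩, hlX⟩ := hX0 X hX
  set y := yA a X with hyd
  set Y : ℝ := 2 * (y : ℝ) with hYd
  have hy0 : (1 : ℝ) ≤ y := by exact_mod_cast hy1
  have hY0 : 0 < Y := by rw [hYd]; linarith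
  have hY1 : 1 ≤ Y := by rw [hYd]; linarith
  -- log X in terms of Y
  have hlX2 : Real.log X ≤ 2 * Y ^ (1 / a) := by
    have h1 : (Real.log X) ^ a / 4 < (y : ℝ) + 1 := by
      rw [hyd, yA]
      exact Nat.lt_floor_add_one _
    have h2 : (Real.log X) ^ a ≤ 4 * Y := by rw [hYd]; linarith
    have h3 := Real.rpow_le_rpow (by positivity) h2 (by positivity : 0 ≤ 1 / a)
    rw [← Real.rpow_mul (by linarith), mul_one_div_cancel (by linarith), Real.rpow_one,
      Real.mul_rpow (by norm_num) hY0.le] at h3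
    have h4 : (4 : ℝ) ^ (1 / a) ≤ 2 := by
      calc (4 : ℝ) ^ (1 / a) ≤ (4 : ℝ) ^ (1 / 2 : ℝ) := by
            apply Real.rpow_le_rpow_of_exponent_le (by norm_num)
            rw [hd0] at hd0p; linarith
        _ = 2 := by
            rw [← Real.sqrt_eq_rpow]
            rw [show (4 : ℝ) = 2 ^ 2 by norm_num, Real.sqrt_sq (by norm_num)]
    refine h3.trans (mul_le_mul_of_nonneg_right h4 (by positivity))
  have hLY : Real.log y ≤ Real.log Y := by
    apply Real.log_le_log (by linarith)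
    rw [hYd]; linarith
  have hLY0 : 0 ≤ Real.log Y := by linarith
  set L := Real.log (y : ℝ) with hLd
  set q := 9 * L * Real.log X * Y ^ (-((1 - δ) / 2)) with hqd
  have hLq : L * q ≤ 18 * (Real.log Y ^ 2 * Y ^ (-(d0 / 2))) := by
    have h1 : Y ^ (1 / a) * Y ^ (-((1 - δ) / 2)) ≤ Y ^ (-(d0 / 2)) := by
      rw [← Real.rpow_add hY0]
      apply Real.rpow_le_rpow_of_exponent_le hY1
      rw [hd0] at hδ2 ⊢
      linarith
    calc L * q = 9 * L ^ 2 * Real.log X * Y ^ (-((1 - δ) / 2)) := by rw [hqd]; ring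
      _ ≤ 9 * L ^ 2 * (2 * Y ^ (1 / a)) * Y ^ (-((1 - δ) / 2)) := by
          apply mul_le_mul_of_nonneg_right _ (by positivity)
          exact mul_le_mul_of_nonneg_left hlX2 (by positivity)
      _ = 18 * (L ^ 2 * (Y ^ (1 / a) * Y ^ (-((1 - δ) / 2)))) := by ring
      _ ≤ 18 * (Real.log Y ^ 2 * Y ^ (-(d0 / 2))) := by
          apply mul_le_mul_of_nonneg_left _ (by norm_num)
          apply mul_le_mul _ h1 (by positivity) (by positivity)
          exact pow_le_pow_left₀ (by linarith) hLY 2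
  have hq0 : 0 ≤ q := by positivity
  have hq1 : q ≤ 1 / 2 := by
    have h1 : q ≤ L * q := by nlinarith
    have h2 := hsm.trans (min_le_left _ _)
    linarith
  have hmain := main_est (M := M) (C1 := C1) hC hK hδ hδ1 y X hlX hL1 hy1 hω
    (fun i hi => hy5 y h5y i hi) (fun f hf hf2 hs hc => hy6 y h6y f hf hf2 hs hc) hq1
  refine hmain.trans ?_
  have hA : 3 * C * K / L ≤ ε / 2 := by
    rw [div_le_iff₀ (by linarith)]
    rw [div_le_iff₀ hε] at hL2
    linarith
  have hB : 6 * C * K * L * q ≤ ε / 2 := by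
    have h1 := hsm.trans (min_le_right _ _)
    have h2 : L * q ≤ 18 * (ε / (216 * C * K)) := by linarith
    have h3 : 6 * C * K * (L * q) ≤ 6 * C * K * (18 * (ε / (216 * C * K))) :=
      mul_le_mul_of_nonneg_left h2 (by positivity)
    have h4 : 6 * C * K * (18 * (ε / (216 * C * K))) = ε / 2 := by
      field_simp
      norm_num
    linarith
  linarith

end Run7.h376.CG
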